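import Pool.Agent.Q12.NV.Asm
import Pool.Agent.Q12.NV.Tri
import Pool.Agent.Q12.NV.Nil
import Pool.Agent.Q12.NV.Lu
import Pool.Agent.Q12.NV.Dens
import Pool.Agent.Q12.NV.Ex
import Pool.Agent.Q12.NV.Gen
import Pool.Agent.Q12.NV.Desc
import Pool.Agent.Q12.NV.Dim
import Pool.Agent.Q12.NV.Cnt

/-!
# The dimension of the variety of nilpotent `(A, C)`-commutative `n`-ary algebras

The structure constants of an `n`-ary algebra on `ℂ^k` form a point `c` of the affine space with
coordinates indexed by `(Fin n → Fin k) × Fin k`: `c (J, l)` is the coefficient of `e_l` in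
`[e_(J 0), …, e_(J (n-1))]`, and `mul c x` is the product `[x 0, …, x (n-1)]`. `Mono` are the monomials
(arbitrary arrangements of brackets), `Mono.ops` counts the applications of the multiplication,
`Mono.eval` evaluates. `variety n k A C` is the set of the nilpotent `(A, C)`-commutative structures.

Idea of the proof. A nilpotent structure is strictly triangular with respect to a flag, so the variety
is the closure of the image of `U × N`, where `N` is the space of the strictly triangular structures
and `U` the group of the lower unipotent matrices which are the identity in the last `|A|` columns; for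
a generic structure the terms of dimension `≤ k - |A|` of the flag are the iterated annihilators, hence
defined over the field generated by the structure constants, while the others are arbitrary (the
quotient of dimension `|A|` has zero multiplication).
-/

set_option autoImplicit false

namespace Pool.Agent.Results.MP_e0acc1_al.Dimension


/-- Structure constants of `n`-ary algebras on `ℂ^k`. -/
abbrev StructureConstants (n k : ℕ) : Type := (Fin n → Fin k) × Fin k → ℂ

/-- The product of `x 0, …, x (n-1)` in the algebra with the structure constants `c`. -/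
def mul {n k : ℕ} (c : StructureConstants n k) (x : Fin n → Fin k → ℂ) : Fin k → ℂ :=
  fun l => ∑ J : Fin n → Fin k, (∏ p, x p (J p)) * c (J, l)

/-- Monomials: iterated applications of an `n`-ary operation to elements of `V`. -/
inductive Mono (n : ℕ) (V : Type) : Type
  | leaf : V → Mono n V
  | node : (Fin n → Mono n V) → Mono n V

/-- The number of applications of the operation. -/
def Mono.ops {n : ℕ} {V : Type} : Mono n V → ℕ
  | .leaf _ => 0
  | .node f => 1 + ∑ i, (f i).ops

/-- The value of a monomial in the algebra with the structure constants `c`. -/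
def Mono.eval {n k : ℕ} (c : StructureConstants n k) : Mono n (Fin k → ℂ) → (Fin k → ℂ)
  | .leaf v => v
  | .node f => mul c (fun i => (f i).eval c)

/-- The nilpotent `(A, C)`-commutative `n`-ary algebra structures on `ℂ^k`: all monomials with at
least `m` applications of the multiplication vanish, for some `m`; interchanging the entries in two
positions of `A` changes the sign, interchanging the entries in two positions of `C` does not change
the product. -/
def variety (n k : ℕ) (A C : Finset (Fin n)) : Set (StructureConstants n k) :=
  {c | (∃ m : ℕ, ∀ t : Mono n (Fin k → ℂ), m ≤ t.ops → t.eval c = 0) ∧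
    (∀ i ∈ A, ∀ j ∈ A, i ≠ j → ∀ x : Fin n → Fin k → ℂ,
      mul c (x ∘ Equiv.swap i j) = - mul c x) ∧
    ∀ i ∈ C, ∀ j ∈ C, ∀ x : Fin n → Fin k → ℂ, mul c (x ∘ Equiv.swap i j) = mul c x}

/-- The translation of monomials. -/
def toMono {n : ℕ} {V : Type} : Mono n V → Q12.NV.Mono n V
  | .leaf v => .leaf v
  | .node f => .node fun i => toMono (f i)

/-- The translation of monomials, backwards. -/
def ofMono {n : ℕ} {V : Type} : Q12.NV.Mono n V → Mono n V
  | .leaf v => .leaf v
  | .node f => .node fun i => ofMono (f i)

theorem toMono_ops {n : ℕ} {V : Type} (t : Mono n V) : (toMono t).ops = t.ops := by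
  induction t with
  | leaf v => rfl
  | node f ih =>
    change 1 + ∑ i, (toMono (f i)).ops = 1 + ∑ i, (f i).ops
    rw [Finset.sum_congr rfl fun i _ => ih i]

theorem toMono_eval {n k : ℕ} (c : StructureConstants n k) (t : Mono n (Fin k → ℂ)) :
    (toMono t).eval c = t.eval c := by
  induction t with
  | leaf v => rfl
  | node f ih =>
    change Q12.NV.mul c (fun i => (toMono (f i)).eval c) = mul c (fun i => (f i).eval c)
    rw [show (fun i => (toMono (f i)).eval c) = fun i => (f i).eval c from funext ih]
    rfl

theorem toMono_ofMono {n : ℕ} {V : Type} (t : Q12.NV.Mono n V) : toMono (ofMono t) = t := by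
  induction t with
  | leaf v => rfl
  | node f ih =>
    change Q12.NV.Mono.node (fun i => toMono (ofMono (f i))) = _
    rw [show (fun i => toMono (ofMono (f i))) = f from funext ih]

theorem variety_eq (n k : ℕ) (A C : Finset (Fin n)) : variety n k A C = Q12.NV.X n k A C := by
  ext c
  constructor
  · rintro ⟨⟨m, hm⟩, h⟩
    refine ⟨⟨m, fun t ht => ?_⟩, h⟩
    rw [← toMono_ofMono t, toMono_ops] at ht
    rw [← toMono_ofMono t, toMono_eval]
    exact hm _ ht
  · rintro ⟨⟨m, hm⟩, h⟩
    refine ⟨⟨m, fun t ht => ?_⟩, h⟩
    rw [← toMono_eval]
    exact hm _ (by rwa [toMono_ops])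

/-- **The dimension of the variety of the nilpotent `(A, C)`-commutative `n`-ary algebras on `ℂ^k`** is
`∑_{m < k} (m choose |A|) * (m + |C| - 1 choose |C|) * m ^ (n - |A| - |C|)`
plus `(k choose 2) - (|A| choose 2)` if `|A| ≤ k`, and `0` if `|A| > k`.
(`m.multichoose c` is `(m + c - 1 choose c)`; the subtraction is truncated, and for `|A| > k` the sum
is empty.) -/
theorem result (n k : ℕ) (hn : 2 ≤ n) (_hk : 1 ≤ k) (A C : Finset (Fin n)) (hAC : Disjoint A C) :
    ringKrullDim (MvPolynomial ((Fin n → Fin k) × Fin k) ℂ ⧸
        MvPolynomial.vanishingIdeal ℂ (variety n k A C)) =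
      ((∑ m ∈ Finset.range k, m.choose A.card * m.multichoose C.card *
        m ^ (n - A.card - C.card) + (k.choose 2 - A.card.choose 2) : ℕ) : WithBot ℕ∞) := by
  rw [variety_eq]
  exact Q12.NV.main Q12.NV.s_tri Q12.NV.s_nil (Q12.NV.s_dens Q12.NV.s_lu)
    (Q12.NV.s_gen Q12.NV.s_ex) Q12.NV.s_desc Q12.NV.s_dim Q12.NV.s_cnt n k hn A C hAC

end Pool.Agent.Results.MP_e0acc1_al.Dimension
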